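import Pool.Agent.K7.H64.BQ.PairD

/-!
The sieve product of the pair of forms `n + a`, `n - b`, and the large sieve and the restriction theorem for the
integers `n` for which `n + a` and `b - n` are both prime, uniformly in `a` and `b`.
-/

set_option autoImplicit false

open Finset Polynomial

namespace Pool.Agent.K7.H40.GB

open Pool.Agent.Y843.HS
open Pool.Agent.K7.H64.LS
open Pool.Agent.K7.H64.BQ

/-- the forms `n + a` and `n - b` -/
noncomputable def gd (a b : ℕ) : Fin 2 → ℤ[X] := ![X + C (a : ℤ), X - C (b : ℤ)]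

theorem gd_eval (a b : ℕ) (n : ℤ) : (gd a b 0).eval n = n + a ∧ (gd a b 1).eval n = n - b := by
  unfold gd
  simp

theorem ZS_gd (a b : ℕ) {p : ℕ} (hp : p.Prime) (n : ℕ) :
    n % p ∈ ZS (gd a b) p ↔ (p : ℤ) ∣ (n : ℤ) + a ∨ (p : ℤ) ∣ (n : ℤ) - b := by
  rw [ZS_mem _ hp.pos]
  constructor
  · rintro ⟨i, hi⟩
    fin_cases i
    · left
      change (p : ℤ) ∣ (gd a b 0).eval (n : ℤ) at hi
      rwa [(gd_eval a b n).1] at hi
    · right
      change (p : ℤ) ∣ (gd a b 1).eval (n : ℤ) at hi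
      rwa [(gd_eval a b n).2] at hi
  · rintro (h | h)
    · refine ⟨0, ?_⟩
      rwa [(gd_eval a b n).1]
    · refine ⟨1, ?_⟩
      rwa [(gd_eval a b n).2]

/-- the reflection of the residue classes -/
def refl (p a c : ℕ) : ℕ := ((-(c : ℤ) - a) % p).toNat

theorem refl_cast {p : ℕ} (hp : 0 < p) (a c : ℕ) : ((refl p a c : ℕ) : ℤ) = (-(c : ℤ) - a) % p := by
  unfold refl
  exact Int.toNat_of_nonneg (Int.emod_nonneg _ (by exact_mod_cast hp.ne'))

theorem refl_lt {p : ℕ} (hp : 0 < p) (a c : ℕ) : refl p a c < p := by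
  have h1 := refl_cast hp a c
  have h2 := Int.emod_lt_of_pos (-(c : ℤ) - a) (by exact_mod_cast hp : (0 : ℤ) < p)
  omega

theorem refl_mod {p : ℕ} (hp : 0 < p) (a c : ℕ) : ∃ t : ℤ, ((refl p a c : ℕ) : ℤ) = -(c : ℤ) - a + p * t := by
  refine ⟨-((-(c : ℤ) - a) / p), ?_⟩
  rw [refl_cast hp]
  have := Int.emod_add_mul_ediv (-(c : ℤ) - a) p
  linear_combination this

theorem refl_inj {p : ℕ} (hp : 0 < p) (a : ℕ) {c c' : ℕ} (hc : c < p) (hc' : c' < p)
    (h : refl p a c = refl p a c') : c = c' := by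
  obtain ⟨t, ht⟩ := refl_mod hp a c
  obtain ⟨t', ht'⟩ := refl_mod hp a c'
  rw [h, ht'] at ht
  have h1 : (c : ℤ) - c' = p * (t - t') := by linear_combination ht
  have h2 : (p : ℤ) ∣ (c : ℤ) - c' := ⟨_, h1⟩
  have h3 : |(c : ℤ) - c'| < p := by
    rw [abs_lt]
    constructor <;> omega
  have h4 := Int.eq_zero_of_abs_lt_dvd h2 h3
  omega

theorem card_eq (a b : ℕ) {p : ℕ} (hp : p.Prime) : (ZS (gd a b) p).card = (ZS (fd (a + b)) p).card := by
  apply le_antisymm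
  · apply card_le_card_of_injOn (refl p a)
    · intro c hc
      have hlt := ZS_lt _ _ c hc
      have h1 := (ZS_gd a b hp c).1 (by rwa [Nat.mod_eq_of_lt hlt])
      obtain ⟨t, ht⟩ := refl_mod hp.pos a c
      have h2 := (ZS_fd (a + b) hp (refl p a c)).2 (by
        rcases h1 with h | h
        · left
          have : (p : ℤ) ∣ ((refl p a c : ℕ) : ℤ) := by
            rw [ht]
            have e : -(c : ℤ) - a + p * t = -((c : ℤ) + a) + p * t := by ring
            rw [e]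
            exact dvd_add ((dvd_neg).2 h) (dvd_mul_right _ _)
          exact_mod_cast this
        · right
          have : (p : ℤ) ∣ ((refl p a c + (a + b) : ℕ) : ℤ) := by
            push_cast
            rw [ht]
            have e : -(c : ℤ) - a + p * t + (a + b) = -((c : ℤ) - b) + p * t := by ring
            rw [e]
            exact dvd_add ((dvd_neg).2 h) (dvd_mul_right _ _)
          exact_mod_cast this)
      rwa [Nat.mod_eq_of_lt (refl_lt hp.pos a c)] at h2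
    · intro c hc c' hc' h
      exact refl_inj hp.pos a (ZS_lt _ _ c hc) (ZS_lt _ _ c' hc') h
  · apply card_le_card_of_injOn (refl p a)
    · intro c hc
      have hlt := ZS_lt _ _ c hc
      have h1 := (ZS_fd (a + b) hp c).1 (by rwa [Nat.mod_eq_of_lt hlt])
      obtain ⟨t, ht⟩ := refl_mod hp.pos a c
      have h2 := (ZS_gd a b hp (refl p a c)).2 (by
        rcases h1 with h | h
        · left
          rw [ht]
          have e : -(c : ℤ) - a + p * t + a = -(c : ℤ) + p * t := by ring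
          rw [e]
          exact dvd_add ((dvd_neg).2 (by exact_mod_cast h)) (dvd_mul_right _ _)
        · right
          rw [ht]
          have e : -(c : ℤ) - a + p * t - b = -((c + (a + b) : ℕ) : ℤ) + p * t := by push_cast; ring
          rw [e]
          exact dvd_add ((dvd_neg).2 (by exact_mod_cast h)) (dvd_mul_right _ _))
      rwa [Nat.mod_eq_of_lt (refl_lt hp.pos a c)] at h2
    · intro c hc c' hc' h
      exact refl_inj hp.pos a (ZS_lt _ _ c hc) (ZS_lt _ _ c' hc') h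

theorem VV_gd (a b k N : ℕ) : VV (ZS (gd a b)) k N = VV (ZS (fd (a + b))) k N := by
  unfold VV
  refine prod_congr rfl fun p hp => ?_
  rw [card_eq a b (Pr_prime hp)]

theorem gd_adm {a b : ℕ} (h : Even (a + b)) : Adm (gd a b) 2 := by
  refine ⟨?_, ?_, ?_⟩
  · intro i
    fin_cases i
    · change 0 < (X + C (a : ℤ) : ℤ[X]).natDegree
      rw [natDegree_X_add_C]
      norm_num
    · change 0 < (X - C (b : ℤ) : ℤ[X]).natDegree
      rw [natDegree_X_sub_C]
      norm_num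
  · rw [Fin.sum_univ_two]
    change (X + C (a : ℤ) : ℤ[X]).natDegree + (X - C (b : ℤ) : ℤ[X]).natDegree ≤ 2
    rw [natDegree_X_sub_C, natDegree_X_add_C]
  · intro p hp
    have h1 : (ZS (gd a b) p).card < p := by
      rw [card_eq a b hp]
      exact (ZS_uni (fd_adm h) hp).2.1
    obtain ⟨m, hm, hmZ⟩ : ∃ m ∈ range p, m ∉ ZS (gd a b) p := by
      by_contra hcon
      push Not at hcon
      have := card_le_card (show range p ⊆ ZS (gd a b) p from fun m hm => hcon m hm)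
      rw [card_range] at this
      omega
    refine ⟨m, fun i hi => hmZ ?_⟩
    have h2 := (ZS_mem (gd a b) hp.pos m).2 ⟨i, hi⟩
    rwa [Nat.mod_eq_of_lt (mem_range.1 hm)] at h2

/-- the sieve product for the pair -/
theorem VV_seg' : ∃ C : ℝ, 0 < C ∧ ∀ a b : ℕ, Even (a + b) → 0 < a + b → ∀ N : ℕ, 2 ≤ N → ∀ k : ℕ, 1 ≤ k →
    VV (ZS (gd a b)) k N ≤ C * (Real.log (2 * k) / Real.log N) ^ 2 * PP k (a + b) := by
  obtain ⟨C, hC, h⟩ := VV_seg
  refine ⟨C, hC, fun a b he h0 N hN k hk => ?_⟩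
  rw [VV_gd, ← PP_nat]
  exact h (a + b) he h0 N hN k hk

/-- the large sieve at few points for the pairs with fixed sum -/
theorem lsf_sum {κ : ℝ} (hκ : 0 < κ) : ∃ C : ℝ, 0 < C ∧ ∀ b c : ℕ, Even (b + c) → 0 < b + c → ∀ N : ℕ, 2 ≤ N →
    ∀ (A : ℕ) (S : Finset ℕ), S ⊆ Ioc A (A + N) → (∀ n ∈ S, Good (gd b c) κ N n) →
    ∀ (k : ℕ) (α : Fin k → ℝ) (δ : ℝ), 0 < δ →
    (∀ i j, i ≠ j → ∀ m : ℤ, δ ≤ |α i - α j - m|) → ∀ a : ℕ → ℂ,
    ∑ i, ‖∑ n ∈ S, a n * Complex.exp (2 * Real.pi * Complex.I * n * α i)‖ ^ 2 ≤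
      C * ((N : ℝ) + 1 / δ) * ((Real.log (2 * k) / Real.log N) ^ 2 * PP k (b + c)) * ∑ n ∈ S, ‖a n‖ ^ 2 := by
  obtain ⟨C, hC, h⟩ := lsf_uni (ι := Fin 2) 2 hκ
  obtain ⟨C2, hC2, h2⟩ := VV_seg'
  refine ⟨2 * C * C2, by positivity, ?_⟩
  intro b c hde hd N hN A S hSI hSG k α δ hδ hsep a
  have hN2 : (2 : ℝ) ≤ N := by exact_mod_cast hN
  have hK1 : 1 ≤ ⌈1 / δ⌉₊ := Nat.one_le_ceil_iff.2 (by positivity)
  have hKle : (⌈1 / δ⌉₊ : ℝ) ≤ 1 / δ + 1 := (Nat.ceil_lt_add_one (by positivity)).le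
  have hG0 : 0 ≤ ∑ n ∈ S, ‖a n‖ ^ 2 := sum_nonneg fun i _ => by positivity
  obtain ⟨P, hP⟩ : ∃ P : ℝ, P = PP k (b + c) := ⟨_, rfl⟩
  have hP0 : 0 ≤ P := by rw [hP]; exact zero_le_one.trans (one_le_PP _ _)
  rcases Nat.eq_zero_or_pos k with hk | hk
  · subst hk
    rw [Finset.univ_eq_empty, sum_empty, ← hP]
    positivity
  have h1 := h (gd b c) (gd_adm hde) N hN A S hSI hSG (Fin k) univ α ⌈1 / δ⌉₊ hK1 (fun i _ j _ hij =>
    sep_real hδ (fun m => hsep j i (Ne.symm hij) m)) a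
  rw [card_univ, Fintype.card_fin] at h1
  have h3 := h2 b c hde hd N hN k hk
  rw [← hP] at h3 ⊢
  have hd : 0 < 1 / δ := by positivity
  calc ∑ i, ‖∑ n ∈ S, a n * Complex.exp (2 * Real.pi * Complex.I * n * α i)‖ ^ 2
      = ∑ i, ‖∑ n ∈ S, a n * Pool.Agent.Helper112.ee (n * α i)‖ ^ 2 := by
        refine sum_congr rfl fun i _ => ?_
        have e : ∑ n ∈ S, a n * Complex.exp (2 * Real.pi * Complex.I * n * α i) =
            ∑ n ∈ S, a n * Pool.Agent.Helper112.ee (n * α i) := by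
          refine sum_congr rfl fun n _ => ?_
          unfold Pool.Agent.Helper112.ee
          congr 2
          push_cast
          ring
        rw [e]
    _ ≤ _ := h1
    _ ≤ C * ((N : ℝ) + ⌈1 / δ⌉₊) * (C2 * (Real.log (2 * k) / Real.log N) ^ 2 * P) * ∑ n ∈ S, ‖a n‖ ^ 2 := by
        apply mul_le_mul_of_nonneg_right _ hG0
        apply mul_le_mul_of_nonneg_left h3 (by positivity)
    _ ≤ C * (2 * ((N : ℝ) + 1 / δ)) * (C2 * (Real.log (2 * k) / Real.log N) ^ 2 * P) * ∑ n ∈ S, ‖a n‖ ^ 2 := by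
        apply mul_le_mul_of_nonneg_right _ hG0
        apply mul_le_mul_of_nonneg_right _ (by positivity)
        apply mul_le_mul_of_nonneg_left _ hC.le
        linarith
    _ = _ := by ring

/-- the product from the start -/
theorem VV_zero {Z : ℕ → Finset ℕ} (N : ℕ) : VV Z 0 N = VV Z 1 N := by
  unfold VV
  congr 1
  ext p
  rw [Pr_mem, Pr_mem]
  constructor
  · rintro ⟨⟨_, h4⟩, h5⟩
    exact ⟨⟨h5.one_lt, h4⟩, h5⟩
  · rintro ⟨⟨_, h4⟩, h5⟩
    exact ⟨⟨h5.pos, h4⟩, h5⟩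

/-- the restriction theorem for the pairs with fixed sum -/
theorem restr_sum {κ : ℝ} (hκ : 0 < κ) {p : ℝ} (hp : 2 < p) : ∃ C : ℝ, 0 < C ∧ ∀ b c : ℕ, Even (b + c) →
    0 < b + c → ∀ N : ℕ, 2 ≤ N →
    ∀ (A : ℕ) (S : Finset ℕ), S ⊆ Ioc A (A + N) → (∀ n ∈ S, Good (gd b c) κ N n) → ∀ a : ℕ → ℂ,
    ∫ α in (0 : ℝ)..1, ‖∑ n ∈ S, a n * Complex.exp (2 * Real.pi * Complex.I * n * α)‖ ^ p ≤
      C / N * (N / Real.log N ^ 2 * PP 0 (b + c) * ∑ n ∈ S, ‖a n‖ ^ 2) ^ (p / 2) := by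
  obtain ⟨C, hC, h⟩ := restr_uni (ι := Fin 2) 2 hκ hp
  obtain ⟨C2, hC2, h2⟩ := VV_seg'
  have hlog2 : 0 < Real.log 2 := Real.log_pos (by norm_num)
  refine ⟨C * (C2 * Real.log 2 ^ 2) ^ (p / 2), by positivity, ?_⟩
  intro b c hde hd N hN A S hSI hSG a
  have hN2 : (2 : ℝ) ≤ N := by exact_mod_cast hN
  have hN0 : (0 : ℝ) < N := by linarith
  have hlN : 0 < Real.log N := Real.log_pos (by linarith)
  have h1 := h (gd b c) (gd_adm hde) N hN A S hSI hSG a
  have hG0 : 0 ≤ ∑ n ∈ S, ‖a n‖ ^ 2 := sum_nonneg fun i _ => by positivity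
  have hP1 : 1 ≤ PP 0 (b + c) := one_le_PP _ _
  have hV0 : 0 < VV (ZS (gd b c)) 0 N := VV_nonneg fun p hp => (ZS_uni (gd_adm hde) (Pr_prime hp)).2.1
  have hV : VV (ZS (gd b c)) 0 N ≤ (C2 * Real.log 2 ^ 2) * (PP 0 (b + c) / Real.log N ^ 2) := by
    rw [VV_zero]
    refine (h2 b c hde hd N hN 1 le_rfl).trans ?_
    have e3 : PP ((1 : ℕ) : ℝ) (b + c) ≤ PP 0 (b + c) := PP_anti (by norm_num) _
    have e6 := one_le_PP ((1 : ℕ) : ℝ) (b + c)
    calc C2 * (Real.log (2 * (1 : ℕ)) / Real.log N) ^ 2 * PP ((1 : ℕ) : ℝ) (b + c) ≤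
          C2 * (Real.log (2 * (1 : ℕ)) / Real.log N) ^ 2 * PP 0 (b + c) :=
          mul_le_mul_of_nonneg_left e3 (by positivity)
      _ = _ := by
          rw [Nat.cast_one, mul_one, div_pow]
          ring
  calc ∫ α in (0 : ℝ)..1, ‖∑ n ∈ S, a n * Complex.exp (2 * Real.pi * Complex.I * n * α)‖ ^ p
      = ∫ α in (0 : ℝ)..1, ‖∑ n ∈ S, a n * Pool.Agent.Helper112.ee (n * α)‖ ^ p := by
        congr 1
        ext α
        have e : ∑ n ∈ S, a n * Complex.exp (2 * Real.pi * Complex.I * n * α) =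
            ∑ n ∈ S, a n * Pool.Agent.Helper112.ee (n * α) := by
          refine sum_congr rfl fun n _ => ?_
          unfold Pool.Agent.Helper112.ee
          congr 2
          push_cast
          ring
        rw [e]
    _ ≤ _ := h1
    _ ≤ C / N * ((C2 * Real.log 2 ^ 2) * (N / Real.log N ^ 2 * PP 0 (b + c) * ∑ n ∈ S, ‖a n‖ ^ 2)) ^ (p / 2) := by
        apply mul_le_mul_of_nonneg_left _ (by positivity)
        apply Real.rpow_le_rpow (by positivity) _ (by linarith)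
        calc N * VV (ZS (gd b c)) 0 N * ∑ n ∈ S, ‖a n‖ ^ 2 ≤
              N * ((C2 * Real.log 2 ^ 2) * (PP 0 (b + c) / Real.log N ^ 2)) * ∑ n ∈ S, ‖a n‖ ^ 2 := by
              apply mul_le_mul_of_nonneg_right _ hG0
              exact mul_le_mul_of_nonneg_left hV hN0.le
          _ = _ := by ring
    _ = _ := by
        rw [Real.mul_rpow (by positivity) (by positivity)]
        ring

/-- the product of `1 + 1 / p` for `2 M`, `M` odd -/
theorem PP_two {M : ℕ} (hM : 0 < M) (t : ℝ) : PP t (2 * M) ≤ 3 / 2 * PP t M := by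
  unfold PP
  have hsub : (2 * M).primeFactors.filter (fun p : ℕ => t < p) ⊆
      insert 2 (M.primeFactors.filter (fun p : ℕ => t < p)) := by
    intro p hp
    rw [mem_filter, Nat.primeFactors_mul (by norm_num) hM.ne', mem_union, Nat.Prime.primeFactors Nat.prime_two,
      mem_singleton] at hp
    rw [mem_insert, mem_filter]
    rcases hp.1 with h | h
    · exact Or.inl h
    · exact Or.inr ⟨h, hp.2⟩
  have h1 : ∀ p : ℕ, (1 : ℝ) ≤ 1 + 1 / (p : ℝ) := fun p => by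
    have : (0 : ℝ) ≤ 1 / p := by positivity
    linarith
  refine (prod_sub_le hsub (fun p : ℕ => 1 + 1 / (p : ℝ)) (fun p _ => h1 p)).trans ?_
  by_cases h2 : 2 ∈ M.primeFactors.filter (fun p : ℕ => t < p)
  · rw [insert_eq_of_mem h2]
    have : (0 : ℝ) ≤ ∏ p ∈ M.primeFactors.filter (fun p : ℕ => t < p), (1 + 1 / (p : ℝ)) :=
      prod_nonneg fun p _ => by have := h1 p; linarith
    linarith
  · rw [prod_insert h2]
    apply le_of_eq
    norm_num

end Pool.Agent.K7.H40.GB
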